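import Mathlib
import Pool.Agent.Run7.h8.IC.Red
import Pool.Agent.Run7.h8.IC.Fam

/-!
# The crystalline Tate conjecture for abelian varieties over finite fields with Weil numbers in CM
fields with isolated cycles of automorphisms

Over an algebraic closure of the field with `p` elements each abelian variety is isogenous to the
reduction of an abelian variety of CM type (Honda, Tate). So an abelian variety over the field
with `p ^ b` elements is modelled by `RedAV`: a finite product of CM types `(E l, Φ l)` with Weil
numbers in `E l` (the Frobenius endomorphism) that satisfy the formula of Shimura and Taniyama;
its cohomology of degree `n`, with coefficients in an algebraically closed field `Ω`, consists of
the alternating `n`-forms on `Ω ⊗ H_1`, on which the Frobenius endomorphism acts by the Weil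
numbers.

Let `π i` be finitely many Weil numbers as below, and let `𝒞` (`PowersOf π`) be the class of the
abelian varieties `Y` over finite fields of characteristic `p` each of whose factors is
supersingular or has a Frobenius endomorphism some power of which is a power of `π i` for some
`i`. So `Y` is, over an algebraic closure, isogenous to a product of powers of the simple abelian
varieties `A i` of the Weil numbers `π i` (of any exponents) and of a supersingular abelian
variety; the class contains all products of powers of its members.

The Weil numbers. Let `π i` be Weil numbers for `q = p ^ a` (algebraic integers with `π i * conj
(π i) = q`) in CM fields `K i`, finitely many. For a CM subfield `T` of `K i` let `unitNorm` be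
the norm `N` of `π i` to `T`, normalised to absolute value one: `N ^ 2 / p ^ (a [K i : T])`. The
slopes of the `π i` are arbitrary. There are two assumptions.

* (`NormsSeparated`) Different embeddings of CM subfields `T i`, `T i'` of the fields (equal subfields
  if `i = i'`) never map positive powers of these numbers to the same complex number. For one
  Weil number `π` in `K` this is equivalent to `NormsGenerate`: for all CM subfields `T` of `K`,
  all positive powers of the normalised norm to `T` generate the field `T`. This condition is
  necessary: exotic classes (for instance of Weil type) come from norms some powers of which lie
  in smaller fields.
* (`AllCyclic`) For every family of CM subfields `T i` of the `K i`, `i ∈ S ≠ ∅`, some automorphism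
  `τ` of `ℂ` has an *isolated cycle* on the complex embeddings of the `T i` (`Isolated`):
  for one embedding `ψ` the cycle of `ψ` under `τ` has `n > 1` elements, where `n` is any power
  of any prime number (or `n = 2 ^ a r ^ b`, `a > 0`, `r` an odd prime number, and the cycle is
  stable under complex conjugation), and `n` does not divide the length of any other cycle,
  except for that of the complex conjugate of `ψ`. By the theorem of Chebotarev this is a
  condition on the decomposition of prime numbers: some prime number, unramified in the `T i`,
  has exactly one prime ideal, or one pair of complex conjugate prime ideals, in the fields `T i`
  whose residue degree is divisible by `n`, and this residue degree is `n`. Alternatively the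
  family may have one of the properties of the starting files: some prime number divides one of
  the discriminants of the `T i`, but its third power does not divide their product; or some
  automorphism of `ℂ` moves at least one and at most four embeddings; and for norms with only two
  slopes `third power` and `four` may be replaced by `fourth power` and `six`.

An example (second part of the theorem, `ForPrimePower`), in which the condition on the CM
subfields is not a hypothesis any more: `K` is **any** CM field of degree `2 r ^ k`, `r` a prime
number, such that some automorphism of `ℂ` acts on the pairs of complex conjugate embeddings of
`K` as one cycle (`OneOrbit`; for instance some prime number is inert in the maximal real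
subfield of `K`, or is totally ramified there and does not divide the degree). `K` may have many
CM subfields. Then the conclusion is true for every Weil number `π` in `K` with `NormsGenerate`,
and arbitrary slopes. So for abelian varieties of prime power dimension with such a Frobenius
element exotic classes can only be explained by norms to CM subfields. (For `k = 1`, prime
dimension, an automorphism as in `OneOrbit` always exists, and the result is similar to theorems
of Tankeev and Zarhin.)

The conclusion (`CrystallineFor`). **Both forms of the crystalline Tate conjecture are true for
all `Y` in `𝒞`, in all degrees, over all finite extensions of the ground field**
(`CrystallineTate`). This means the following. Let `K₀` be the fraction field of the ring of Witt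
vectors of the field with `Q = (p ^ b) ^ s` elements, with its Frobenius automorphism `σ`; let
`V₀` be the dual space of the first crystalline cohomology group of `Y` with coefficients in
`K₀`, with the semilinear endomorphism `Ψ` dual to the crystalline Frobenius endomorphism, and
the linear Frobenius endomorphism `F₀ = Ψ ^ (b * s)`. The crystalline cohomology group
`H^{2m}(Y)` is the space of alternating forms `f` of degree `2 m` on `V₀`; the crystalline
Frobenius endomorphism maps `f` to `v ↦ σ (f (Ψ v))`. Over an algebraically closed field `Ω` that
contains `K₀` the space `V₀` is identified with `Ω ⊗ H_1`, where `F₀` is the multiplication by `π
^ s` (`IsCrystalline`). Let `Cyc ⊆ H^{2m}(Y)` be the set of the classes of algebraic cycles of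
codimension `m` over the field with `Q` elements. Then

* each class `f` in `H^{2m}(Y)` with `Fr f = Q ^ m f` is a linear combination of elements of
  `Cyc` with coefficients in `K₀`, and
* each class `f` that is multiplied by `p ^ m` by the crystalline Frobenius endomorphism is a
  linear combination of elements of `Cyc` with coefficients in the fixed field of `σ`, the field
  of `p`-adic numbers.

The theorem uses of `Cyc` only that the crystalline Frobenius endomorphism multiplies its
elements by `p ^ m`, and (`ContainsAlg`) that its linear span over `K₀` contains each class `g`
with `Fr g = Q ^ m g` that belongs, over `Ω`, to the smallest system `Alg` of cohomology classes
of abelian varieties over finite fields that contains the Tate classes of degree two (which are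
algebraic by the theorem of Tate) and the reductions of certain Weil classes (Markman), and that
is stable under linear combinations, cup products, pull-backs along homomorphisms and
push-forwards along projections. The deduction from the relations between the Frobenius
eigenvalues is from the starting files (R299, TH117).

The starting files (MP_021685_ag OneFrobenius, MP_0fca13_ag TateRingOfPowers) have the criterion
for families of CM subfields with the alternative properties in `AllCyclic`, and with automorphisms
which act on the pairs of conjugate embeddings as one cycle of odd *prime* length and *fix all
other embeddings*. New is that the length can be any prime power, including powers of two, or `2
^ a r ^ b`, and that the other embeddings can move, as long as the lengths of their cycles are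
not divisible by `n`; so the second part of the theorem is new for all `k > 1`. The reduction to
the slopes and the descent to the CM subfields are those of the starting files
(`Pool.Agent.W527`).

The proof. A multiplicative relation between the conjugates of the `π i` gives an odd function
`c` on the embeddings of a family of CM subfields, as small as possible, such that `∑ c (z) w (g
z) = 0` for all automorphisms `g`, where `w` is the function given by the slopes of the norms. We
apply this to `g τ ^ j`, multiply by `ζ ^ (-j)`, where `ζ` is a primitive `n`-th root of unity,
and sum over `j`. The cycles whose length is not divisible by `n` do not contribute. So for all
automorphisms `h`, `g` the product of `∑ c (h τ ^ i ψ) ζ ^ i` and of `∑ w (g τ ^ j ψ) ζ ^ (-j)`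
is zero. If the first sum is zero for all `h`, then the irreducibility of the cyclotomic
polynomial gives `c (h ψ) = c (h τ ^ (n / r) ψ)` for all `h`, so that `c` comes from smaller CM
subfields, a contradiction. If not, then in the same way `w (g ψ) = w (g τ ^ (n / r) ψ)` for all
`g`, which contradicts `NormsSeparated`. So the angle rank is maximal: the only multiplicative
relations are those given by `π i * conj (π i) = q`.
-/

set_option autoImplicit false

namespace Pool.Agent.Results.MP_60ec62_ag.IsolatedCycles

open Run7.h8.IC Run7.h8.IC.Fam

/-- **The crystalline Tate conjecture for the abelian varieties over finite fields with Weil
numbers in CM fields with isolated cycles.** -/
theorem result :
    ForCyclic (fun p _ _ _ _ K _ _ _ π =>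
      CrystallineFor p K π) ∧
    ForPrimePower (fun p _ _ _ _ K _ _ _ π =>
      CrystallineFor p K π) :=
  both _ crystallineFor

end Pool.Agent.Results.MP_60ec62_ag.IsolatedCycles
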